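import Pool.Agent.Helper80.Stack.Goals

set_option autoImplicit false

/-!
# Packet ORBIT: primitives along the cycles of a permutation
-/

namespace Pool.Agent.Helper56.Stk

open Classical Pool.Agent.Helper80.Stk

theorem pf_Orbit : StmtOrbit := by
  intro D _ φ g hg
  -- representative
  let q : D → D := fun d => (Quotient.mk (Equiv.Perm.SameCycle.setoid φ) d).out
  have hq : ∀ d, φ.SameCycle (q d) d := fun d => by
    have := Quotient.mk_out (s := Equiv.Perm.SameCycle.setoid φ) d
    exact this
  have hq2 : ∀ d d', φ.SameCycle d d' → q d = q d' := fun d d' h => by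
    have : (Quotient.mk (Equiv.Perm.SameCycle.setoid φ) d) =
        (Quotient.mk (Equiv.Perm.SameCycle.setoid φ) d') := Quotient.sound h
    show Quotient.out _ = Quotient.out _
    rw [this]
  have hex : ∀ d, ∃ n : ℕ, (φ ^ n) (q d) = d := fun d => (hq d).exists_nat_pow_eq
  let n : D → ℕ := fun d => Nat.find (hex d)
  have hn : ∀ d, (φ ^ (n d)) (q d) = d := fun d => Nat.find_spec (hex d)
  have hmin : ∀ d k, (φ ^ k) (q d) = d → n d ≤ k := fun d k h => Nat.find_min' (hex d) h
  have hsymm : ∀ d, q (φ.symm d) = q d := fun d => by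
    apply hq2
    exact ⟨1, by simp⟩
  refine ⟨fun d => ∑ i ∈ Finset.range (n d), g ((φ ^ (i + 1)) (q d)), fun d => ?_⟩
  show (∑ i ∈ Finset.range (n d), g ((φ ^ (i + 1)) (q d))) +
    (∑ i ∈ Finset.range (n (φ.symm d)), g ((φ ^ (i + 1)) (q (φ.symm d)))) = g d
  rw [hsymm d]
  have hm := hn (φ.symm d)
  rw [hsymm d] at hm
  have hm1 : (φ ^ (n (φ.symm d) + 1)) (q d) = d := by
    rw [pow_succ', Equiv.Perm.mul_apply, hm]; simp
  rcases Nat.eq_zero_or_pos (n d) with h0 | hpos
  · -- `d` is the representative
    have hd : q d = d := by have := hn d; rw [h0] at this; simpa using this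
    set m := n (φ.symm d) with hmdef
    rw [h0]
    simp only [Finset.range_zero, Finset.sum_empty, zero_add]
    rw [hd] at hm hm1 ⊢
    have hminm : ∀ k, (φ ^ k) d = φ.symm d → m ≤ k := fun k h => by
      apply hmin
      rw [hsymm d, hd]; exact h
    have hinj : ∀ i < m + 1, ∀ j < m + 1, i < j → (φ ^ i) d ≠ (φ ^ j) d := by
      intro i hi j hj hij h
      have : (φ ^ (m - j + i)) d = φ.symm d := by
        rw [pow_add, Equiv.Perm.mul_apply, h, ← Equiv.Perm.mul_apply, ← pow_add,
          show m - j + j = m by omega, hm]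
      have := hminm _ this
      omega
    have hsum : (∑ d' : D, (if φ.SameCycle d d' then g d' else 0)) =
        ∑ i ∈ Finset.range (m + 1), g ((φ ^ i) d) := by
      rw [← Finset.sum_filter]
      symm
      apply Finset.sum_bij (fun i _ => (φ ^ i) d)
      · intro i _
        simp only [Finset.mem_filter, Finset.mem_univ, true_and]
        exact ⟨(i : ℤ), by simp⟩
      · intro i hi j hj h
        rw [Finset.mem_range] at hi hj
        by_contra hne
        rcases Nat.lt_or_gt_of_ne hne with h' | h'
        · exact hinj i hi j hj h' h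
        · exact hinj j hj i hi h' h.symm
      · intro d' hd'
        simp only [Finset.mem_filter, Finset.mem_univ, true_and] at hd'
        obtain ⟨k, hk⟩ := hd'.exists_nat_pow_eq
        refine ⟨k % (m + 1), Finset.mem_range.2 (Nat.mod_lt _ (Nat.succ_pos m)), ?_⟩
        rw [← hk]
        have hper : ∀ t : ℕ, (φ ^ ((m + 1) * t)) d = d := by
          intro t
          induction t with
          | zero => simp
          | succ t ih =>
            rw [Nat.mul_succ, pow_add, Equiv.Perm.mul_apply, hm1, ih]
        conv_rhs => rw [← Nat.mod_add_div k (m + 1), pow_add, Equiv.Perm.mul_apply, hper]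
      · intro i _
        rfl
    have h1 := hg d
    rw [hsum, Finset.sum_range_succ'] at h1
    simp only [pow_zero, Equiv.Perm.coe_one, id_eq] at h1
    have h2 : (∑ i ∈ Finset.range m, g ((φ ^ (i + 1)) d)) + g d + g d = g d := by
      rw [h1, zero_add]
    rw [add_assoc, z2, add_zero] at h2
    exact h2
  · obtain ⟨k, hk⟩ : ∃ k, n d = k + 1 := ⟨n d - 1, by omega⟩
    have hnk : n (φ.symm d) = k := by
      apply le_antisymm
      · apply hmin
        rw [hsymm d]
        have := hn d
        rw [hk, pow_succ', Equiv.Perm.mul_apply] at this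
        rw [← this]; simp only [Equiv.symm_apply_apply]
        rw [this]
      · have := hmin d _ hm1
        omega
    rw [hnk, hk, Finset.sum_range_succ]
    have : (φ ^ (k + 1)) (q d) = d := by rw [← hk]; exact hn d
    rw [this]
    have h3 := z2 (∑ i ∈ Finset.range k, g ((φ ^ (i + 1)) (q d)))
    calc _ = ((∑ i ∈ Finset.range k, g ((φ ^ (i + 1)) (q d))) +
          (∑ i ∈ Finset.range k, g ((φ ^ (i + 1)) (q d)))) + g d := by ring
      _ = g d := by rw [h3, zero_add]

end Pool.Agent.Helper56.Stk
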